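import Mathlib
import Pool.Agent.X269.Rot

set_option autoImplicit false

/-!
MP_6087e2_al, Q1: for every `n ≥ 6` some locally commutative non-abelian free subgroup of `SO_n(ℝ)`
contains an element that has the eigenvalue `-1`.
-/

namespace Pool.Agent.Results.MP_6087e2_al.EigenvalueMinusOne

open Matrix

/-- the group `SO_n(ℝ)` -/
abbrev SO (n : ℕ) : Type := Matrix.specialOrthogonalGroup (Fin n) ℝ

/-- `x` is a point of the unit sphere fixed by `g` -/
def IsFixedPoint {n : ℕ} (g : SO n) (x : Fin n → ℝ) : Prop :=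
  ∑ i, x i ^ 2 = 1 ∧ (g : Matrix (Fin n) (Fin n) ℝ) *ᵥ x = x

/-- any two elements with a common fixed point on the unit sphere commute -/
def LocallyCommutative {n : ℕ} (G : Subgroup (SO n)) : Prop :=
  ∀ g ∈ G, ∀ h ∈ G, (∃ x, IsFixedPoint g x ∧ IsFixedPoint h x) → g * h = h * g

/-- isomorphic to a free group of rank at least two -/
def IsNonabelianFree {n : ℕ} (G : Subgroup (SO n)) : Prop :=
  ∃ X : Type, Nontrivial X ∧ Nonempty (G ≃* FreeGroup X)

/-- `-1` is an eigenvalue of `g` -/
def HasEigenvalueNegOne {n : ℕ} (g : SO n) : Prop :=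
  ∃ x : Fin n → ℝ, x ≠ 0 ∧ (g : Matrix (Fin n) (Fin n) ℝ) *ᵥ x = -x

/-- For every `n ≥ 6` there is a locally commutative, non-abelian free subgroup of `SO_n(ℝ)` that
contains an element with the eigenvalue `-1`. -/
theorem result (n : ℕ) (hn : 6 ≤ n) :
    ∃ G : Subgroup (SO n), LocallyCommutative G ∧ IsNonabelianFree G ∧
      ∃ g ∈ G, HasEigenvalueNegOne g := by
  classical
  obtain ⟨m, rfl⟩ : ∃ m, n = m + 6 := ⟨n - 6, by omega⟩
  obtain ⟨ι, _, _, ρ, hcard, hgood, ⟨v₀, hv₀, hneg⟩, hdet⟩ := Pool.Agent.X269.Rot.ex_all m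
  have e : ι ≃ Fin (m + 6) := Fintype.equivFinOfCardEq hcard
  have hmem : ∀ w, Matrix.reindex e e (ρ w) ∈ Matrix.specialOrthogonalGroup (Fin (m + 6)) ℝ := by
    intro w
    rw [Matrix.mem_specialOrthogonalGroup_iff, Matrix.mem_orthogonalGroup_iff']
    refine ⟨?_, ?_⟩
    · show (Matrix.reindex e e (ρ w))ᵀ * Matrix.reindex e e (ρ w) = 1
      rw [Matrix.transpose_reindex, Matrix.reindex_apply, Matrix.reindex_apply,
        Matrix.submatrix_mul_equiv, hgood.orth]
      simp
    · rw [Matrix.det_reindex_self, hdet]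
  let f : Pool.Agent.X269.Quat.F →* SO (m + 6) :=
    { toFun := fun w => ⟨Matrix.reindex e e (ρ w), hmem w⟩
      map_one' := by
        apply Subtype.ext
        show Matrix.reindex e e (ρ 1) = 1
        rw [map_one]
        simp
      map_mul' := by
        intro w w'
        apply Subtype.ext
        show Matrix.reindex e e (ρ (w * w')) = Matrix.reindex e e (ρ w) * Matrix.reindex e e (ρ w')
        rw [map_mul]
        simp [Matrix.submatrix_mul_equiv] }
  have hmv : ∀ w (x : Fin (m + 6) → ℝ),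
      ((f w : SO (m + 6)) : Matrix (Fin (m + 6)) (Fin (m + 6)) ℝ) *ᵥ x =
      (ρ w *ᵥ (x ∘ e)) ∘ e.symm := by
    intro w x
    show (Matrix.reindex e e (ρ w)) *ᵥ x = _
    rw [Matrix.reindex_apply, Matrix.submatrix_mulVec_equiv]
    simp
  have hfix : ∀ w (x : Fin (m + 6) → ℝ), IsFixedPoint (f w) x → x ∘ e ≠ 0 ∧
      ρ w *ᵥ (x ∘ e) = x ∘ e := by
    intro w x hx
    refine ⟨fun h0 => ?_, ?_⟩
    · have h1 : x = 0 := by
        funext i
        have := congrFun h0 (e.symm i)
        simpa using this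
      have h2 := hx.1
      rw [h1] at h2
      simp at h2
    · have h1 := hx.2
      rw [hmv] at h1
      have h2 := congrArg (fun y => y ∘ e) h1
      simp only [Function.comp_assoc, Equiv.symm_comp_self, Function.comp_id] at h2
      exact h2
  have hinj : Function.Injective f := by
    rw [injective_iff_map_eq_one]
    intro w hw
    apply hgood.inj
    have h1 : Matrix.reindex e e (ρ w) = 1 := congrArg Subtype.val hw
    have h2 := congrArg (Matrix.reindex e.symm e.symm) h1
    simpa using h2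
  refine ⟨f.range, ?_, ?_, f (FreeGroup.of 0), ⟨_, rfl⟩, ?_⟩
  · rintro _ ⟨w, rfl⟩ _ ⟨w', rfl⟩ ⟨x, h1, h2⟩
    have h3 := hgood.lc (x ∘ e) (hfix w x h1).1 w w' (hfix w x h1).2 (hfix w' x h2).2
    rw [← map_mul, ← map_mul, h3]
  · exact ⟨Fin 2, inferInstance, ⟨(MonoidHom.ofInjective hinj).symm⟩⟩
  · refine ⟨v₀ ∘ e.symm, fun h0 => hv₀ ?_, ?_⟩
    · funext i
      have := congrFun h0 (e i)
      simpa using this
    · rw [hmv]
      have : (v₀ ∘ e.symm) ∘ e = v₀ := by
        simp [Function.comp_assoc]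
      rw [this, hneg]
      rfl

end Pool.Agent.Results.MP_6087e2_al.EigenvalueMinusOne
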